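import Pool.Agent.T9h90.SP.Spec

set_option autoImplicit false

/-! Pieces (RG), (SB) and (TR): ranges of increasing functions, unbounded `Sigma_1` sets, and `RT^2_2(p)` inside an unbounded set. -/

namespace Pool.Agent.T9h83.SP

open Pool.Agent.Helper617.RM Pool.Agent.T9h90.SP
open Pool.Agent.H645R2.R (D1 DG GF)

universe u

/-- (RG) the range of an increasing function of the model, also on a set of arguments -/
theorem rg : S_RG.{u} := by
  intro N _ g hg hstep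
  have h1 : ∀ m n, m < n → g m < g n := by
    intro m n hmn
    obtain ⟨k, rfl⟩ := (lt_iff_add'' m n).1 hmn
    refine ind_S1 (P := fun k => g m < g (m + k + 1)) ?_ ?_ ?_ k
    · exact (D1.lt (DG.const (g m)) (DG.app (f := g) hg
        (DG.add (DG.add (DG.const m) (DG.var 0)) (DG.const 1)))).1
    · rw [add_zero]; exact hstep m
    · intro k hk
      have := hstep (m + k + 1)
      rw [← add_assoc m k 1]
      exact hk.trans this
  have h2 : ∀ n, n ≤ g n := by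
    intro n
    refine ind_S1 (P := fun n => n ≤ g n) ?_ (zero_le' _) ?_ n
    · exact (D1.le (DG.var 0) (DG.app (f := g) hg (DG.var 0))).1
    · intro n hn
      exact add_one_le_iff'.2 (lt_of_le_of_lt hn (hstep n))
  refine ⟨h1, h2, fun I hI => ⟨?_, fun hU b => ?_⟩⟩
  · have h3 : {y | ∃ i, i ≤ y ∧ (i ∈ I ∧ y = g i)} ∈ N.Sets := by
      refine comp_D0 (P := fun y => ∃ i, i ≤ y ∧ (i ∈ I ∧ y = g i)) ?_
      refine D0.bexLe (P := fun v i => i ∈ I ∧ v 0 = g i) (Tm.var 0) (D0.and (D0.mem (Tm.var 0) hI) ?_)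
      exact D0.rel (R := fun k x => x = g k) hg (Tm.var 0) (Tm.var 1)
    have h4 : {y | ∃ i ∈ I, y = g i} = {y | ∃ i, i ≤ y ∧ (i ∈ I ∧ y = g i)} := by
      ext y
      constructor
      · rintro ⟨i, hi, rfl⟩
        exact ⟨i, h2 i, hi, rfl⟩
      · rintro ⟨i, -, hi, h⟩
        exact ⟨i, hi, h⟩
    rw [h4]
    exact h3
  · obtain ⟨i, hi, hb⟩ := hU b
    exact ⟨g i, ⟨i, hi, rfl⟩, lt_of_lt_of_le hb (h2 i)⟩

/-- (SB) an unbounded `Sigma_1` set contains an unbounded set of the model -/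
theorem sb : S_SQ.{u} → S_RG.{u} → S_SB.{u} := by
  intro sq rg N _ K hK hU
  obtain ⟨x0, hx0, -⟩ := hU 0
  obtain ⟨g, hg, hg2⟩ := sq N K (fun x y => x < y) hK (D0.lt (Tm.var 0) (Tm.var 1)).S1 ⟨x0, hx0⟩
    (fun x _ => by
      obtain ⟨y, hy, hxy⟩ := hU x
      exact ⟨y, hy, hxy⟩)
  obtain ⟨-, -, h3⟩ := rg N g hg (fun n => (hg2 n).2)
  have hI : (Set.univ : Set N.M) ∈ N.Sets := comp_D0 (P := fun _ => True) D0.true
  obtain ⟨h4, h5⟩ := h3 Set.univ hI
  refine ⟨_, h4, h5 (fun b => ⟨b + 1, trivial, lt_add_one_iff'.2 le_rfl⟩), ?_⟩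
  rintro x ⟨i, -, rfl⟩
  exact (hg2 i).1

/-- (TR) `RT^2_2(p)` inside an unbounded set -/
theorem tr : S_SQ.{u} → S_RG.{u} → S_TR.{u} := by
  intro sq rg N _ p hp f hf H hH hU
  obtain ⟨x0, hx0, -⟩ := hU 0
  obtain ⟨g, hg, hg2⟩ := sq N (fun x => x ∈ H) (fun x y => x < y) (D0.mem (Tm.var 0) hH).S1
    (D0.lt (Tm.var 0) (Tm.var 1)).S1 ⟨x0, hx0⟩
    (fun x _ => by
      obtain ⟨y, hy, hxy⟩ := hU x
      exact ⟨y, hy, hxy⟩)
  obtain ⟨hmono, -, h3⟩ := rg N g hg (fun n => (hg2 n).2)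
  have hcol : ColIn N (fun x y => f (g x) (g y)) := by
    have a1 : D0 (fun v : Ctx N => f (g (v 0)) (v 1) = true) :=
      d0_comp_fun (F := fun x y => f x y = true) hf hg
    have a2 : D0 (fun v : Ctx N => f (g (v 1)) (v 0) = true) :=
      D0.rel (R := fun x y => f (g x) y = true) a1 (Tm.var 1) (Tm.var 0)
    have a3 : D0 (fun v : Ctx N => f (g (v 1)) (g (v 0)) = true) :=
      d0_comp_fun (F := fun x y => f (g y) x = true) a2 hg
    have a4 : D0 (fun v : Ctx N => f (g (v 0)) (g (v 1)) = true) :=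
      D0.rel (R := fun x y => f (g y) (g x) = true) a3 (Tm.var 1) (Tm.var 0)
    exact codeRel_mem_D0 (R := fun x y => f (g x) (g y) = true) a4
  obtain ⟨I, hI, hinf, hno⟩ := hp _ hcol
  have hUI : Unb I := by
    intro b
    by_contra hcon
    refine hinf ⟨b + 1, fun y hy => ?_⟩
    have h : ¬ b < y := fun h => hcon ⟨y, hy, h⟩
    exact lt_add_one_iff'.2 (not_lt.1 h)
  obtain ⟨h4, h5⟩ := h3 I hI
  refine ⟨_, h4, ?_, h5 hUI, ?_⟩
  · rintro x ⟨i, -, rfl⟩
    exact (hg2 i).1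
  · rintro ⟨x, hx1, hx2⟩
    have hch : ∀ i : ℕ, ∃ k : N.M, i < p.size → k ∈ I ∧ x i = g k := by
      intro i
      by_cases hi : i < p.size
      · obtain ⟨k, hk, hk2⟩ := hx1 i hi
        exact ⟨k, fun _ => ⟨hk, hk2⟩⟩
      · exact ⟨0, fun h => absurd h hi⟩
    choose k hk using hch
    refine hno ⟨k, fun i hi => (hk i hi).1, fun i j hij hj => ?_⟩
    have hi : i < p.size := hij.trans hj
    obtain ⟨b1, b2⟩ := hx2 i j hij hj
    rw [(hk i hi).2, (hk j hj).2] at b1 b2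
    refine ⟨?_, b2⟩
    by_contra hcon
    rcases lt_or_eq_of_le (not_lt.1 hcon) with h | h
    · exact absurd (hmono _ _ h) (not_lt.2 b1.le)
    · rw [h] at b1
      exact lt_irrefl _ b1

end Pool.Agent.T9h83.SP
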